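import Mathlib

namespace Pool.Agent.Results.MP_f2d551_nt.UnlessFermat

/-- `μ`-Sondow numbers -/
def Sondow (μ : ℤ) (n : ℕ) : Prop :=
  0 < n ∧ ∀ p s : ℕ, p.Prime → p ∣ n → p ^ s ∣ n → ¬ p ^ (s + 1) ∣ n →
    (p : ℤ) ^ s ∣ ((n / p : ℕ) : ℤ) + μ

theorem of_sqfree (μ : ℤ) (n : ℕ) (hn : Squarefree n)
    (h : ∀ p : ℕ, p.Prime → p ∣ n → (p : ℤ) ∣ ((n / p : ℕ) : ℤ) + μ) : Sondow μ n := by
  refine ⟨Nat.pos_of_ne_zero hn.ne_zero, fun p s hp h1 h2 h3 => ?_⟩
  have hs : s ≤ 1 := by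
    by_contra hc
    have : p * p ∣ n := (by rw [← sq]; exact pow_dvd_pow p (by omega) : p * p ∣ p ^ s).trans h2
    exact hp.not_isUnit (hn p this)
  interval_cases s
  · simp
  · simpa using h p hp h1

theorem of_prime (μ : ℤ) (p : ℕ) (hp : p.Prime) (h : (p : ℤ) ∣ μ + 1) : Sondow μ p := by
  refine of_sqfree μ p hp.prime.squarefree (fun q hq hqp => ?_)
  obtain rfl := (Nat.prime_dvd_prime_iff_eq hq hp).mp hqp
  rw [Nat.div_self hq.pos, add_comm]
  simpa using h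

theorem two_pow (t m : ℕ) (hm : m % 2 = 1) : Sondow ((2 ^ t * m : ℕ) : ℤ) (2 ^ (t + 1)) := by
  refine ⟨by positivity, fun p s hp h1 h2 h3 => ?_⟩
  obtain rfl := (Nat.prime_dvd_prime_iff_eq hp Nat.prime_two).mp (hp.dvd_of_dvd_pow h1)
  have hs : s ≤ t + 1 := (Nat.pow_dvd_pow_iff_le_right (by norm_num)).mp h2
  have e : 2 ^ (t + 1) / 2 = 2 ^ t := by rw [pow_succ]; simp
  obtain ⟨j, rfl⟩ : ∃ j, m = 2 * j + 1 := ⟨m / 2, by omega⟩
  rw [e]
  refine (pow_dvd_pow _ hs).trans ⟨j + 1, ?_⟩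
  push_cast
  ring

theorem mod145 (j : ℕ) : 2 ^ 2 ^ (3 * j + 3) % 145 = 111 := by
  induction j with
  | zero => norm_num
  | succ j ih =>
    rw [show 2 ^ (3 * (j + 1) + 3) = 2 ^ (3 * j + 3) * 8 by ring, pow_mul, Nat.pow_mod, ih]

theorem mod627 (j : ℕ) : 2 ^ 2 ^ (12 * j + 4) % 627 = 328 := by
  induction j with
  | zero => norm_num
  | succ j ih =>
    rw [show 2 ^ (12 * (j + 1) + 4) = 2 ^ (12 * j + 4) * 4096 by ring, pow_mul, Nat.pow_mod, ih]
    decide +kernel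

theorem s145 (x : ℕ) (h : x % 145 = 111) : Sondow x 145 := by
  refine of_sqfree _ _ (by decide +kernel) (fun p hp h1 => ?_)
  have h2 : p ∣ 5 * 29 := h1
  rcases (Nat.Prime.dvd_mul hp).mp h2 with h3 | h3
  · obtain rfl := (Nat.prime_dvd_prime_iff_eq hp (by norm_num)).mp h3
    omega
  · obtain rfl := (Nat.prime_dvd_prime_iff_eq hp (by norm_num)).mp h3
    omega

theorem s627 (x : ℕ) (h : x % 627 = 328) : Sondow x 627 := by
  refine of_sqfree _ _ (by decide +kernel) (fun p hp h1 => ?_)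
  have h2 : p ∣ 3 * (11 * 19) := h1
  rcases (Nat.Prime.dvd_mul hp).mp h2 with h3 | h3
  · obtain rfl := (Nat.prime_dvd_prime_iff_eq hp (by norm_num)).mp h3
    omega
  · rcases (Nat.Prime.dvd_mul hp).mp h3 with h3 | h3
    · obtain rfl := (Nat.prime_dvd_prime_iff_eq hp (by norm_num)).mp h3
      omega
    · obtain rfl := (Nat.prime_dvd_prime_iff_eq hp (by norm_num)).mp h3
      omega

theorem result (μ : ℤ) (h : μ ∉ ({0, 1, -1, 2, -2, 4, 16} : Set ℤ)) :
    (∃ n : ℕ, 2 ≤ n ∧ (n : ℤ) ≤ |μ| ∧ Sondow μ n) ∨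
    ∃ k : ℕ, 5 ≤ k ∧ k % 3 ≠ 0 ∧ k % 12 ≠ 4 ∧ μ = 2 ^ 2 ^ k ∧ (2 ^ 2 ^ k + 1).Prime := by
  simp only [Set.mem_insert_iff, Set.mem_singleton_iff, not_or] at h
  obtain ⟨h0, h1, h2, h3, h4, h5, h6⟩ := h
  rcases lt_or_gt_of_ne h0 with hneg | hpos
  · left
    obtain ⟨x, rfl⟩ : ∃ x : ℕ, μ = -(x + 3) := ⟨(-μ - 3).toNat, by omega⟩
    have hp := Nat.minFac_prime (n := x + 2) (by omega)
    have hle := Nat.minFac_le (n := x + 2) (by omega)
    refine ⟨_, hp.two_le, by rw [abs_neg, abs_of_pos (by omega)]; omega, of_prime _ _ hp ?_⟩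
    have : ((x + 2).minFac : ℤ) ∣ ((x + 2 : ℕ) : ℤ) := by exact_mod_cast Nat.minFac_dvd _
    rw [show -((x : ℤ) + 3) + 1 = -((x + 2 : ℕ) : ℤ) by push_cast; ring]
    exact this.neg_right
  · obtain ⟨x, rfl⟩ : ∃ x : ℕ, μ = x := ⟨μ.toNat, by omega⟩
    rw [abs_of_pos hpos]
    by_cases hpr : (x + 1).Prime
    · obtain ⟨t, m, hm, e⟩ := Nat.exists_eq_two_pow_mul_odd (n := x) (by omega)
      have hm1 : m % 2 = 1 := Nat.odd_iff.mp hm
      by_cases hm3 : m = 1
      · subst hm3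
        rw [mul_one] at e
        subst e
        have ht : t ≠ 0 := by rintro rfl; simp at h1
        obtain ⟨k, rfl⟩ := Nat.pow_of_pow_add_prime (by norm_num) ht hpr
        have hk : 3 ≤ k := by
          by_contra hc
          have : k < 3 := by omega
          interval_cases k <;> simp at h3 h5 h6
        have hge : ∀ i, i ≤ k → 2 ^ 2 ^ i ≤ 2 ^ 2 ^ k := fun i hi =>
          Nat.pow_le_pow_right (by norm_num) (Nat.pow_le_pow_right (by norm_num) hi)
        by_cases c1 : k % 3 = 0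
        · obtain ⟨j, rfl⟩ : ∃ j, k = 3 * j + 3 := ⟨k / 3 - 1, by omega⟩
          have := hge 3 hk
          exact Or.inl ⟨145, by norm_num, by exact_mod_cast le_trans (by norm_num) this,
            s145 _ (mod145 j)⟩
        · by_cases c2 : k % 12 = 4
          · obtain ⟨j, rfl⟩ : ∃ j, k = 12 * j + 4 := ⟨k / 12, by omega⟩
            have := hge 4 (by omega)
            exact Or.inl ⟨627, by norm_num, by exact_mod_cast le_trans (by norm_num) this,
              s627 _ (mod627 j)⟩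
          · exact Or.inr ⟨k, by omega, c1, c2, by push_cast; rfl, hpr⟩
      · left
        subst e
        refine ⟨2 ^ (t + 1), ?_, ?_, two_pow t m hm1⟩
        · calc 2 = 2 ^ 1 := by norm_num
            _ ≤ 2 ^ (t + 1) := Nat.pow_le_pow_right (by norm_num) (by omega)
        · have : 2 ^ (t + 1) ≤ 2 ^ t * m := by
            rw [pow_succ]; exact Nat.mul_le_mul_left _ (by omega)
          exact_mod_cast this
    · left
      have hp := Nat.minFac_prime (n := x + 1) (by omega)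
      have hlt := (Nat.not_prime_iff_minFac_lt (n := x + 1) (by omega)).mp hpr
      refine ⟨_, hp.two_le, by omega, of_prime _ _ hp ?_⟩
      exact_mod_cast Nat.minFac_dvd (x + 1)

end Pool.Agent.Results.MP_f2d551_nt.UnlessFermat
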